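import Pool.Agent.Run7.h636.LT.PubEq
import Pool.Agent.Run7.h642.LT.P2G
import Pool.Agent.Run7.h642.LT.P4R
import Pool.Agent.Run7.h396.LT.P3A
import Pool.Agent.Run7.h396.LT.SMITH
import Pool.Agent.Run7.h639.LT.P4B
import Pool.Agent.Run7.h606.LT.Trz1
import Pool.Agent.Run7.h606.LT.Trz2
import Pool.Agent.Run7.h606.LT.Pair
import Pool.Agent.Run7.h606.LT.Bt
import Pool.Agent.Run7.h308.LT.Mom
import Pool.Agent.Run7.h308.LT.P5i
import Pool.Agent.Run7.h956.LT.PRL
import Pool.Agent.Run7.h956.LT.STR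
import Pool.Agent.Run7.h956.LT.TRL
import Pool.Agent.Run7.h85.LT.P4i
import Pool.Agent.Run7.h329.LT.INJ
import Pool.Agent.Run7.h329.LT.RFD
import Pool.Agent.Run7.h329.LT.EUL

/-!
# Torsion growth is not the `L²`-torsion

Let `H` be a flag triangulation of the sphere of dimension `2 d` which contains a doubled mod `p` cycle `Z` of
dimension `d`, `p` odd, with a proper colouring of its vertices by `d + 1` colours. Some iterated edge subdivision `S`
of `H` gives a closed aspherical manifold `N` of dimension `2 d + 1` (the Davis complex of the right-angled Coxeter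
group of `S` over the kernel `Γ` of the map to `(ℤ/2)^n`) such that `N` and `M = N × N × N`, of dimension `2 k + 1` with
`k = 3 d + 1`, are `L²`-acyclic with positive determinants, the `L²`-torsion of `M` is `0`, but for all residual chains
`K_i` of `Γ` the torsion of the `k`-th homology of the covers of `M` given by `K_i × K_i × K_i` grows exponentially in
the index.
-/

set_option autoImplicit false

noncomputable section

namespace Pool.Agent.Results.MP_98dedd_gt.TorsionNotL2Torsion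

open Run7.h636.Pub

theorem result (d N : ℕ) (H : SimpleGraph (Fin N)) (hd : 1 ≤ d) (hH : TSph (2 * d + 1) H) (p : ℕ) [Fact p.Prime]
    (hp : p ≠ 2) (Z : Dbl (ZMod p) H d) (col : Fin Z.n → Fin (d + 1))
    (hcol : ∀ v w a b, H.Adj (Z.j v a) (Z.j w b) → col v ≠ col w) :
    ∃ (n : ℕ) (S : SimpleGraph (Fin n)), Sub H S ∧ TSph (2 * d + 1) S ∧ ResFin (Gam S) ∧
      (dav S).free.DetL2Acyclic ∧ (dav S).cube.free.DetL2Acyclic ∧ (dav S).cube.free.l2torsion = 0 ∧
      CubeGrowth (dav S) p (3 * d + 1) (2 ^ n / 2 ^ Z.U.card) := by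
  obtain ⟨hH, f, hf, hf1, hfi⟩ := hH
  rw [HS_iff] at hH
  rw [Rea_eq] at hf hf1 hfi
  obtain ⟨n, S, h1, h2, h3, h4, h5, h6, h7⟩ := Run7.h636.LT.Fin.main3S Run7.h642.LT.P2G.main Run7.h396.LT.P3A.main
    Run7.h639.LT.P4B.main Run7.h642.LT.P4R.main Run7.h85.LT.P4I.main Run7.h606.LT.TRZ1.main Run7.h606.LT.TRZ2.main
    Run7.h396.LT.SMITH.main Run7.h606.LT.PAIR.main Run7.h606.LT.BT.main Run7.h329.LT.INJ.main
    Run7.h329.LT.RFD.main Run7.h308.LT.P5I.main Run7.h956.LT.TRL.main Run7.h956.LT.PRL.main Run7.h956.LT.STR.main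
    (Run7.h329.LT.EUL.main Run7.h956.LT.STR.main Run7.h956.LT.TRL.main Run7.h329.LT.INJ.main)
    Run7.h308.LT.MOM.main d N H hd hH f hf hf1 hfi p hp Z.old col hcol
  obtain ⟨g, hg, hgi, hg3⟩ := h1.real Pool.Agent.N496.LT.e2 f hf hfi
  refine ⟨n, S, Sub_of h1, ⟨(HS_iff _ S).2 h2, g, ?_⟩, h3, h4, h5, h6, fun R c hc0 hc => ?_⟩
  · rw [Rea_eq]
    refine ⟨hg, fun x hx => ?_, hgi⟩
    obtain ⟨y, hy, e⟩ := hg3 x hx
    rw [e]
    exact hf1 y hy
  · have h8 := @h7 R.K (fun i => R.normal i) R.index R.anti R.inf c hc0 hc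
    filter_upwards [h8] with i hi
    rw [tg_old]
    exact hi

end Pool.Agent.Results.MP_98dedd_gt.TorsionNotL2Torsion
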